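import Pool.Agent.NH93.CC.ARC3

/-!
# MP_472c72_co: critical contra pairs on permutation graphs are cyclically 5-edge-connected

Let `(G, w)` be a critical contra pair in which the edges of weight one form two circuits that contain all vertices,
and the edges of weight two join these circuits. Then every edge cut of `G` that separates two circuits has at least
five edges.
-/

set_option autoImplicit false

open Finset

namespace Pool.Agent.Results.MP_472c72_co.CyclicallyFiveConnected

open Pool.Agent.NH93.CC
open Pool.Agent.Helper347.Sab (MGraph dg IsCircuit IsCubic)

open Classical in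
theorem result (V E : Type) [Fintype V] [DecidableEq V] [Fintype E] [DecidableEq E]
    (G : MGraph V E) (w : E → ℕ) (A B : Finset E) (h : Critical G w) (hT : Two G w A B)
    (X : Finset V) (Q Q' : Finset E) (hQ : IsCircuit G Q) (hX : Vx G Q ⊆ X) (hQ' : IsCircuit G Q')
    (hX' : Vx G Q' ⊆ Xᶜ) :
    5 ≤ (univ.filter (fun e => Leaves G X e)).card := by
  by_contra hlt
  exact ARC.cyc5 h hT (by omega) hQ hX hQ' hX'

end Pool.Agent.Results.MP_472c72_co.CyclicallyFiveConnected
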