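import Pool.Agent.NH93.CC.Main

/-!
# MP_472c72_co: contra pairs and the number of nowhere-zero 4-flows modulo 4

Let `G` be a cubic multigraph without loops and `w` an eulerian (1,2)-weight such that `(G, w)` has no faithful
circuit cover. Then the number of the nowhere-zero flows of `G / E_{w=1}` with values in `ZMod 2 × ZMod 2` is
divisible by four, and the alternating cycle sum of every rotation system of `G / E_{w=1}` is zero.
-/

set_option autoImplicit false

open Finset

namespace Pool.Agent.Results.MP_472c72_co.FlowCountModFour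

open Pool.Agent.NH93.CC
open Contra2 (ncyc)
open Pool.Agent.Helper347.Sab (MGraph dg IsCircuit IsCubic)

theorem result (V E : Type) [Fintype V] [DecidableEq V] [Fintype E] [DecidableEq E]
    (G : MGraph V E) (w : E → ℕ) (cubic : IsCubic G) (val : ∀ e, w e = 1 ∨ w e = 2)
    (eulerian : ∀ v, Even (dg G (E1 w) v))
    (contra : ¬ ∃ F : Multiset (Finset E), (∀ C ∈ F, IsCircuit G C) ∧ ∀ e, F.countP (e ∈ ·) = w e) :
    4 ∣ nzG G (E1 w) ∧ (∃ en t ρ, Rot G (E1 w) en t ρ) ∧
      ∀ en t ρ, Rot G (E1 w) en t ρ →
        ∑ U : Finset {e : E // e ∉ E1 w}, (2 : ℤ) ^ U.card * (-2) ^ ncyc (cross U * ρ) = 0 := by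
  have h2 : TwoReg G (E1 w) := by
    intro v
    have h3 : dg G (E1 w) v ≤ 3 := by
      rw [← cubic v]
      exact card_le_card (fun e he => by
        rw [mem_filter] at he ⊢
        exact ⟨mem_univ _, he.2⟩)
    obtain ⟨r, hr⟩ := eulerian v
    omega
  have h1 : ¬ Faithful G (fun e => if e ∈ E1 w then 1 else 2) := by
    rw [w_eq val]
    exact contra
  refine ⟨?_, t_RHO V E G _ cubic h2, ?_⟩
  · by_contra h4
    exact h1 (t_MAIN V E G _ cubic h2 h4)
  · intro en t ρ h
    by_contra h5
    exact h1 (faithful_of_altSum cubic h2 h h5)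

end Pool.Agent.Results.MP_472c72_co.FlowCountModFour
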