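import Pool.Agent.NH93.CC.ARC

/-!
# MP_472c72_co: critical contra pairs on permutation graphs have no monochromatic circuits off two arcs

Let `(G, w)` be a critical contra pair in which the edges of weight one form two circuits `A`, `B` that contain all
vertices, and the edges of weight two join `A` to `B`. Let `X` be a set of vertices such that `A` and `B` each leave
`X` exactly twice and at least two edges of weight two have no end in `X`. Colour the edges of weight one with two
colours such that at the vertices in `X` the colours alternate. Then no circuit inside `X` is monochromatic.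
-/

set_option autoImplicit false

open Finset

namespace Pool.Agent.Results.MP_472c72_co.NoMonochromaticCircuit

open Pool.Agent.NH93.CC
open Pool.Agent.Helper347.Sab (MGraph dg IsCircuit IsCubic)

open Classical in
theorem result (V E : Type) [Fintype V] [DecidableEq V] [Fintype E] [DecidableEq E]
    (G : MGraph V E) (w : E → ℕ) (A B : Finset E) (h : Critical G w) (hT : Two G w A B) (X : Finset V)
    (hA : (A.filter (fun e => Leaves G X e)).card = 2) (hB : (B.filter (fun e => Leaves G X e)).card = 2)
    (h2 : 2 ≤ (univ.filter (fun e => w e = 2 ∧ ∀ v ∈ X, v ∉ G.ends e)).card)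
    (c : E → ZMod 2)
    (hc : ∀ v ∈ X, ∀ e e', e ≠ e' → w e = 1 → w e' = 1 → v ∈ G.ends e → v ∈ G.ends e' → c e ≠ c e')
    (D : Finset E) (hD : IsCircuit G D) (hX : Vx G D ⊆ X) :
    ∃ e ∈ D, ∃ e' ∈ D, w e = 1 ∧ w e' = 1 ∧ c e ≠ c e' := by
  by_contra hno
  push Not at hno
  obtain ⟨f, hf, f', hf', hff⟩ := one_lt_card.1 (by omega :
    1 < (univ.filter (fun e => w e = 2 ∧ ∀ v ∈ X, v ∉ G.ends e)).card)
  rw [mem_filter] at hf hf'
  have key : ∀ col : ZMod 2, (∀ e ∈ D, w e = 1 → c e = col) → False := fun col hcol =>
    ARC.arc h hT hc hA hB hff hf.2.1 hf'.2.1 (fun v hv hvX => hf.2.2 v hvX hv)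
      (fun v hv hvX => hf'.2.2 v hvX hv) hD hX hcol
  by_cases h1 : ∃ e ∈ D, w e = 1
  · obtain ⟨e, he, he1⟩ := h1
    exact key (c e) (fun e' he' h' => (hno e he e' he' he1 h').symm)
  · push Not at h1
    exact key 0 (fun e he h' => absurd h' (h1 e he))

end Pool.Agent.Results.MP_472c72_co.NoMonochromaticCircuit
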