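import Pool.Agent.NH93.CC.SHC

/-!
# MP_472c72_co: circuits without adjacent edges of weight one in critical contra pairs

Let `(G, w)` be a critical contra pair such that every edge cut of `G` with at most three edges isolates one vertex.
Let `D` be a circuit whose edges of weight one are pairwise non-adjacent. Then `G` has an edge cut that consists of
one edge of weight two off `D` and of an even number, at least four, of the edges of weight one of `D`.
-/

set_option autoImplicit false

open Finset

namespace Pool.Agent.Results.MP_472c72_co.ShortCircuits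

open Pool.Agent.NH93.CC
open Pool.Agent.Helper347.Sab (MGraph dg IsCircuit IsCubic)

open Classical in
theorem result (V E : Type) [Fintype V] [DecidableEq V] [Fintype E] [DecidableEq E]
    (G : MGraph V E) (w : E → ℕ) (h : Critical G w)
    (h4 : ∀ X : Finset V, X.Nonempty → Xᶜ.Nonempty → (univ.filter (fun e => Leaves G X e)).card ≤ 3 →
      X.card = 1 ∨ Xᶜ.card = 1)
    (D : Finset E) (hD : IsCircuit G D)
    (hn : ∀ e ∈ D, ∀ e' ∈ D, w e = 1 → w e' = 1 → ∀ v, v ∈ G.ends e → v ∈ G.ends e' → e = e') :
    ∃ (Z : Finset V) (g : E) (S : Finset E), w g = 2 ∧ g ∉ D ∧ S ⊆ D ∧ (∀ e ∈ S, w e = 1) ∧ Even S.card ∧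
      4 ≤ S.card ∧ univ.filter (fun e => Leaves G Z e) = insert g S :=
  SHC.strong h h4 hD hn

end Pool.Agent.Results.MP_472c72_co.ShortCircuits
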